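import Mathlib
import Pool.Agent.H63.PI.Defs
import Pool.Agent.H63.PI.Defs2
import Pool.Agent.H63.PI.D6

/-!
# Pure infiniteness of crossed products by automorphisms of finite Rokhlin dimension, in the
presence of compact ideals
-/

set_option autoImplicit false

universe u

namespace Pool.Agent.Results.MP_9b5ea5_an.PurelyInfiniteQuotients

open MP9b5ea5

/-- Let `A` be a unital C*-algebra which is purely infinite in the sense of Kirchberg and Rordam
(simple or not), let `α` be an automorphism of `A` of Rokhlin dimension at most `d` (the towers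
need not commute) and let `Q` be a quotient of the crossed product `B` of `A` by `α`. If every
nonzero closed ideal of every quotient of `Q` contains a nonzero compact closed ideal, then `Q` is
purely infinite. -/
theorem result : ∀ {A B Q : Type u} [CStarAlgebra A] [PartialOrder A] [StarOrderedRing A]
    [CStarAlgebra B] [CStarAlgebra Q] [PartialOrder Q] [StarOrderedRing Q]
    (α : A ≃⋆ₐ[ℂ] A) (d : ℕ) (ι : A →⋆ₐ[ℂ] B) (w : unitary B) (π : B →⋆ₐ[ℂ] Q),
    PurelyInfinite A → RokhlinDimLE α d → IsCrossedProduct α ι w → Function.Surjective π →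
      HasCompactIdeals Q → PurelyInfinite Q := by
  intro A B Q _ _ _ _ _ _ _ α d ι w π hA hR h hπ hQ
  exact quotient_pi hA hR h π hπ hQ

/-- The hypothesis on the ideals holds for simple algebras : if the crossed product is simple, then
it is purely infinite. -/
theorem simple_case {A B : Type u} [CStarAlgebra A] [PartialOrder A] [StarOrderedRing A]
    [CStarAlgebra B] [PartialOrder B] [StarOrderedRing B]
    (α : A ≃⋆ₐ[ℂ] A) (d : ℕ) (ι : A →⋆ₐ[ℂ] B) (w : unitary B)
    (hA : PurelyInfinite A) (hR : RokhlinDimLE α d) (h : IsCrossedProduct α ι w)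
    (hB : IsSimpleCStar B) : PurelyInfinite B :=
  result α d ι w (StarAlgHom.id ℂ B) hA hR h (fun b => ⟨b, rfl⟩) (simple_hasCompactIdeals hB)

/-- The hypothesis on the ideals also holds if there are only finitely many closed ideals. -/
theorem finite_case {A B : Type u} [CStarAlgebra A] [PartialOrder A] [StarOrderedRing A]
    [CStarAlgebra B] [PartialOrder B] [StarOrderedRing B]
    (α : A ≃⋆ₐ[ℂ] A) (d : ℕ) (ι : A →⋆ₐ[ℂ] B) (w : unitary B)
    (hA : PurelyInfinite A) (hR : RokhlinDimLE α d) (h : IsCrossedProduct α ι w)
    (hB : {I : Set B | IsClosedIdeal I}.Finite) : PurelyInfinite B :=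
  result α d ι w (StarAlgHom.id ℂ B) hA hR h (fun b => ⟨b, rfl⟩) (finite_hasCompactIdeals hB)

end Pool.Agent.Results.MP_9b5ea5_an.PurelyInfiniteQuotients
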