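import Mathlib
import Pool.Agent.H63.PI.Defs
import Pool.Agent.H63.PI.C7

/-!
# Crossed products of purely infinite C*-algebras by automorphisms of finite Rokhlin dimension
are weakly purely infinite
-/

set_option autoImplicit false

universe u

namespace Pool.Agent.Results.MP_9b5ea5_an.WeaklyPurelyInfinite

open MP9b5ea5

/-- Let `A` be a unital C*-algebra which is purely infinite in the sense of Kirchberg and Rordam
(simple or not), and let `α` be an automorphism of `A` of Rokhlin dimension at most `d` (the
towers need not commute). Then the crossed product of `A` by `α` is weakly purely infinite, and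
more precisely it has the property `pi-2(d+1)` of Kirchberg and Rordam. -/
theorem result : ∀ {A B : Type u} [CStarAlgebra A] [PartialOrder A] [StarOrderedRing A]
    [CStarAlgebra B] [PartialOrder B] [StarOrderedRing B]
    (α : A ≃⋆ₐ[ℂ] A) (d : ℕ) (ι : A →⋆ₐ[ℂ] B) (w : unitary B),
    PurelyInfinite A → RokhlinDimLE α d → IsCrossedProduct α ι w →
      HasPropertyPi B (2 * (d + 1)) := by
  intro A B _ _ _ _ _ _ α d ι w hA hR h b hb ε hε
  obtain ⟨r, hr⟩ := weak_propInf hA hR h.cov (fun b ε hε => h.approx b ε hε) b hb
    (2 * (2 * (d + 1))) ε hε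
  have hcard : Fintype.card (Fin (d + 1) × Fin 2) = 2 * (d + 1) := by
    rw [Fintype.card_prod, Fintype.card_fin, Fintype.card_fin]; ring
  let σ : Fin (d + 1) × Fin 2 ≃ Fin (2 * (d + 1)) := Fintype.equivFinOfCardEq hcard
  refine ⟨fun i k => r i (σ.symm k), fun i j => ?_⟩
  have h1 := hr i i.2 j j.2
  have e1 : ∑ k : Fin (2 * (d + 1)), r i (σ.symm k) * b * star (r j (σ.symm k)) =
      ∑ k, r i k * b * star (r j k) :=
    Equiv.sum_comp σ.symm (fun k => r i k * b * star (r j k))
  have e2 : (if i = j then b else 0) = if (i : ℕ) = (j : ℕ) then b else 0 := by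
    by_cases hij : i = j
    · rw [if_pos hij, if_pos (by rw [hij])]
    · rw [if_neg hij, if_neg (fun h => hij (Fin.ext h))]
  rw [e1, e2]
  exact h1

end Pool.Agent.Results.MP_9b5ea5_an.WeaklyPurelyInfinite
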